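import Pool.Agent.H59.PG.Stmts

/-!
# Parity games, row ARI: choice of the order of the matrix
-/

set_option autoImplicit false

namespace Pool.PG

theorem ari_row : ARIStmt := by
  intro δ hδ hδ4
  set κ : ℝ := 1 / 2 - 2 * δ with hκ
  have hκ0 : 0 < κ := by linarith
  obtain ⟨e, he⟩ := exists_nat_ge (1 / κ)
  refine ⟨e, ?_⟩
  intro n hn N hN
  have hnr : (1 : ℝ) ≤ n := by exact_mod_cast hn
  have hN0 : 0 < N := lt_of_lt_of_le (by positivity) hN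
  have hNr : (1 : ℝ) ≤ N := by exact_mod_cast hN0
  have hNp : (0 : ℝ) < N := by linarith
  have h1 : ((N * (2 * (1 + N * n) + 3) : ℕ) : ℝ) ≤ 7 * n * (N : ℝ) ^ (2 : ℕ) := by
    push_cast
    have h2 : (N : ℝ) ≤ n * (N : ℝ) ^ (2 : ℕ) := by
      have h3 : (N : ℝ) ≤ (N : ℝ) ^ (2 : ℕ) := le_self_pow₀ hNr (by norm_num)
      have h4 : (N : ℝ) ^ (2 : ℕ) ≤ n * (N : ℝ) ^ (2 : ℕ) :=
        le_mul_of_one_le_left (by positivity) hnr
      linarith
    nlinarith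
  have h2 : ((N * (2 * (1 + N * n) + 3) : ℕ) : ℝ) ^ δ ≤ (7 * n) * (N : ℝ) ^ (2 * δ) := by
    refine (Real.rpow_le_rpow (Nat.cast_nonneg _) h1 hδ.le).trans ?_
    rw [Real.mul_rpow (by positivity) (by positivity), ← Real.rpow_natCast (N : ℝ) 2,
      ← Real.rpow_mul hNp.le]
    push_cast
    refine mul_le_mul_of_nonneg_right ?_ (by positivity)
    calc ((7 : ℝ) * n) ^ δ ≤ (7 * n) ^ (1 : ℝ) :=
        Real.rpow_le_rpow_of_exponent_le (by linarith) (by linarith)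
      _ = 7 * n := Real.rpow_one _
  have h3 : (28 : ℝ) * n ≤ (N : ℝ) ^ κ := by
    have h4 : ((28 : ℝ) * n) ^ e ≤ N := by exact_mod_cast hN
    have h5 : (((28 : ℝ) * n) ^ e) ^ κ ≤ (N : ℝ) ^ κ :=
      Real.rpow_le_rpow (by positivity) h4 hκ0.le
    rw [← Real.rpow_natCast ((28 : ℝ) * n) e, ← Real.rpow_mul (by positivity)] at h5
    refine le_trans ?_ h5
    have h6 : 1 ≤ (e : ℝ) * κ := by
      have := mul_le_mul_of_nonneg_right he hκ0.le
      rwa [one_div, inv_mul_cancel₀ hκ0.ne'] at this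
    calc (28 : ℝ) * n = (28 * n) ^ (1 : ℝ) := (Real.rpow_one _).symm
      _ ≤ (28 * n) ^ ((e : ℝ) * κ) :=
        Real.rpow_le_rpow_of_exponent_le (by linarith) h6
  have h4 : Real.sqrt N = (N : ℝ) ^ κ * (N : ℝ) ^ (2 * δ) := by
    rw [Real.sqrt_eq_rpow, ← Real.rpow_add hNp, hκ]
    ring_nf
  have h5 : 0 < (N : ℝ) ^ (2 * δ) := Real.rpow_pos_of_pos hNp _
  rw [h4]
  have h6 : (28 * n) * (N : ℝ) ^ (2 * δ) ≤ (N : ℝ) ^ κ * (N : ℝ) ^ (2 * δ) :=
    mul_le_mul_of_nonneg_right h3 h5.le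
  have h7 : 0 < (n : ℝ) * (N : ℝ) ^ (2 * δ) := by positivity
  nlinarith

end Pool.PG
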