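import Pool.Agent.H59.PG.Stmts

/-!
# Parity games, row DUA: exchange of the players
-/

set_option autoImplicit false

namespace Pool.PG

namespace DUA

open Filter

theorem len (g : Game) : (dual g).length = g.length := by
  unfold dual
  exact List.length_map _

theorem vx_dual (g : Game) (v : ℕ) (hv : v < g.length) :
    vx (dual g) v = ((!own g v, pri g v + 1), suc g v) := by
  unfold vx dual own pri suc vx
  rw [List.getD_eq_getElem _ _ (by rw [List.length_map]; exact hv),
    List.getD_eq_getElem _ _ hv, List.getElem_map]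

theorem own_dual (g : Game) (v : ℕ) (hv : v < g.length) : own (dual g) v = !own g v := by
  have h := vx_dual g v hv
  show (vx (dual g) v).1.1 = !own g v
  rw [h]

theorem pri_dual (g : Game) (v : ℕ) (hv : v < g.length) : pri (dual g) v = pri g v + 1 := by
  have h := vx_dual g v hv
  show (vx (dual g) v).1.2 = pri g v + 1
  rw [h]

theorem suc_dual (g : Game) (v : ℕ) (hv : v < g.length) : suc (dual g) v = suc g v := by
  have h := vx_dual g v hv
  show (vx (dual g) v).2 = suc g v
  rw [h]

theorem valid (g : Game) (hg : Valid g) : Valid (dual g) := by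
  intro v hv
  rw [len] at hv
  rw [suc_dual g v hv, len]
  exact hg v hv

/-- plays of the dual game are plays -/
theorem play (g : Game) (hg : Valid g) (v : ℕ) (hv : v < g.length) (x : ℕ → ℕ)
    (hx : Play (dual g) v x) : Play g v x ∧ ∀ n, x n < g.length := by
  have h1 : ∀ n, x n < g.length := by
    intro n
    induction n with
    | zero =>
      rw [hx.1]
      exact hv
    | succ n ih =>
      have h2 := hx.2 n
      rw [suc_dual g _ ih] at h2
      exact (hg _ ih).2 _ h2
  refine ⟨⟨hx.1, fun n => ?_⟩, h1⟩
  have h2 := hx.2 n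
  rwa [suc_dual g _ (h1 n)] at h2

theorem won (g : Game) (i : Bool) (x : ℕ → ℕ) (hx : ∀ n, x n < g.length) (h : WonBy g i x) :
    WonBy (dual g) (!i) x := by
  obtain ⟨p, h1, h2, h3⟩ := h
  refine ⟨p + 1, ?_, ?_, ?_⟩
  · refine h1.mono fun n hn => ?_
    rw [pri_dual g _ (hx n), hn]
  · refine h2.mono fun n hn => ?_
    rw [pri_dual g _ (hx n)]
    omega
  · rw [Nat.even_add_one, h3]
    cases i <;> simp

end DUA

open DUA

theorem dua_row (h1 : SOLStmt) (h2 : WINStmt) : DUAStmt := by
  intro g
  refine ⟨len g, valid g, fun v hv => ⟨own_dual g v hv, suc_dual g v hv⟩, ?_⟩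
  intro hg v hv
  obtain ⟨⟨σ, hσ⟩, -⟩ := h1 g hg
  have hS : Sol (dual g) (fun v => !win g v) σ := by
    refine ⟨?_, ?_, ?_, ?_⟩
    · intro u hu
      rw [len] at hu
      rw [suc_dual g u hu]
      exact hσ.mem u hu
    · intro u hu ho
      rw [len] at hu
      rw [own_dual g u hu] at ho
      have h3 : own g u = win g u := by
        cases h4 : own g u <;> cases h5 : win g u <;> simp_all
      have h6 := hσ.stay u hu h3
      simp only [h6]
    · intro u hu ho w hw
      rw [len] at hu
      rw [own_dual g u hu] at ho
      rw [suc_dual g u hu] at hw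
      have h3 : own g u ≠ win g u := by
        intro h4
        exact ho (by rw [h4])
      have h6 := hσ.trap u hu h3 w hw
      simp only [h6]
    · intro u hu x hx ho
      rw [len] at hu
      obtain ⟨h3, h4⟩ := play g hg u hu x hx
      refine won g (win g u) x h4 (hσ.won u hu x h3 ?_)
      intro n hn
      refine ho n ?_
      rw [own_dual g _ (h4 n), hn]
  have h3 := h2 (dual g) _ σ (valid g hg) hS v (by rw [len]; exact hv) true
  unfold win at h3 ⊢
  rw [Bool.eq_iff_iff]
  simpa using h3

end Pool.PG
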