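import Pool.Agent.H59.PG.BinDefs
import Pool.Agent.TM.NP

/-!
# Parity games with numbers in binary, SPL: parsing
-/

set_option autoImplicit false

namespace Pool.PG.SPL50

open TMLib N487b59b3 N68a2faeb

/-- The state of the parser: whether the next bit is a bit of the block, the current block
(reversed), the blocks which are already read (in reversed order). -/
def spStep (s : Bool × List Bool × List (List Bool)) (b : Bool) :
    Bool × List Bool × List (List Bool) :=
  if s.1 = true then (false, b :: s.2.1, s.2.2)
  else if b = true then (true, s.2.1, s.2.2) else (false, [], s.2.1 :: s.2.2)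

theorem sz_spStep (s : Bool × List Bool × List (List Bool)) (b : Bool) :
    sz (spStep s b) ≤ sz s + 8 := by
  have h1 := sz_bool_le b
  have h2 := sz_bool_le true
  have h3 := sz_bool_le false
  have h4 := sz_pos s.1
  have h5 : sz s = 1 + sz s.1 + (1 + sz s.2.1 + sz s.2.2) := rfl
  unfold spStep
  split_ifs
  · simp only [sz_pair, sz_cons]
    omega
  · simp only [sz_pair]
    omega
  · simp only [sz_pair, sz_cons, sz_nil]
    omega

theorem sz_fold (l : List Bool) : ∀ s : Bool × List Bool × List (List Bool),
    sz (l.foldl spStep s) ≤ sz s + 8 * l.length := by
  induction l with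
  | nil => intro s; simp
  | cons b l ih =>
    intro s
    have h1 := ih (spStep s b)
    have h2 := sz_spStep s b
    simp only [List.foldl_cons, List.length_cons]
    omega

theorem ptime_step : PTime (fun p : (Bool × List Bool × List (List Bool)) × Bool =>
    spStep p.1 p.2) := by
  unfold spStep
  fun_prop

theorem ptime_fold : PTime (fun z : List Bool =>
    z.foldl spStep (false, ([] : List Bool), ([] : List (List Bool)))) := by
  refine PTime.foldl (f := fun _ : List Bool => spStep)
    (init := fun _ : List Bool => (false, ([] : List Bool), ([] : List (List Bool))))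
    (l := fun z : List Bool => z) ?_ (PTime.const _) PTime.id
    (h := fun z : List Bool => 20 + 8 * sz z) ((PB.const 20).add ((PB.const 8).mul PB.sz_self)) ?_
  · exact ptime_step.comp (f := fun p : List Bool × (Bool × List Bool × List (List Bool)) × Bool =>
      p.2) (PTime.snd PTime.id)
  · intro a l' hl
    have h1 := sz_fold l' (false, ([] : List Bool), ([] : List (List Bool)))
    have h2 : sz (false, ([] : List Bool), ([] : List (List Bool))) =
      1 + sz false + (1 + 1 + 1) := rfl
    have h3 := sz_bool_le false
    have h4 := length_lt_sz l'
    have h5 := sz_le_of_prefix hl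
    omega

theorem fold_delimit (x : List Bool) : ∀ (cur : List Bool) (out : List (List Bool)),
    (delimit x).foldl spStep (false, cur, out) = (false, [], (x.reverse ++ cur) :: out) := by
  induction x with
  | nil => intro cur out; rfl
  | cons b x ih =>
    intro cur out
    have h1 : (delimit (b :: x)).foldl spStep (false, cur, out) =
        (delimit x).foldl spStep (false, b :: cur, out) := rfl
    rw [h1, ih, List.reverse_cons, List.append_assoc]
    rfl

theorem fold_blocks (l : List (List Bool)) : ∀ out : List (List Bool),
    ((l.map delimit).flatten).foldl spStep (false, [], out) =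
      (false, [], (l.map List.reverse).reverse ++ out) := by
  induction l with
  | nil => intro out; rfl
  | cons x l ih =>
    intro out
    rw [List.map_cons, List.flatten_cons, List.foldl_append, fold_delimit, ih, List.map_cons,
      List.reverse_cons, List.append_nil, List.append_assoc]
    rfl

theorem chunks_delimit (x y : List Bool) : chunks 2 1 (delimit x ++ y) = (x, false :: y) := by
  have key : ∀ (x acc : List Bool) (n : ℕ), x.length ≤ n →
      (chunkStep 2 1)^[n] (acc, delimit x ++ y) = (x.reverse ++ acc, false :: y) := by
    intro x
    induction x with
    | nil =>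
      intro acc n _
      rw [chunkStep_fix _ _ _ _ rfl]
      rfl
    | cons b l ih =>
      intro acc n hn
      cases n with
      | zero => simp at hn
      | succ n =>
        rw [Function.iterate_succ_apply]
        have : chunkStep 2 1 (acc, delimit (b :: l) ++ y) = (b :: acc, delimit l ++ y) := rfl
        rw [this, ih _ _ (by simpa using hn)]
        simp
  rw [chunks, key x [] _ (by rw [List.length_append, length_delimit]; omega)]
  simp

end Pool.PG.SPL50

namespace Pool.PG

open TMLib N487b59b3 N68a2faeb Pool.PG.SPL50

/-- SPL: parsing. -/
theorem spl_row : SPLStmt := by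
  refine ⟨fun z => ((z.foldl spStep (false, ([] : List Bool),
    ([] : List (List Bool)))).2.2.map List.reverse).reverse,
    fun z => ((chunks 2 1 z).1, (chunks 2 1 z).2.tail), ?_, ?_, ?_, ?_⟩
  · refine PTime.reverse (PTime.map (PTime.snd (PTime.snd ptime_fold))
      (g := fun _ x => List.reverse x) ?_)
    fun_prop
  · fun_prop
  · intro l
    show ((((l.map delimit).flatten).foldl spStep (false, ([] : List Bool),
      ([] : List (List Bool)))).2.2.map List.reverse).reverse = l
    rw [fold_blocks]
    simp
  · intro x y
    show ((chunks 2 1 (delimit x ++ y)).1, (chunks 2 1 (delimit x ++ y)).2.tail) = (x, y)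
    rw [chunks_delimit]
    rfl

end Pool.PG
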